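import Pool.Agent.Lib.MP_1a91b9_ntT.DS.Defs
import Pool.Agent.Lib.MP_1a91b9_ntT3.S8.Gal
import Pool.Agent.Lib.MP_1a91b9_ntT3.EF.Tower
import Pool.Agent.Lib.MP_1a91b9_ntT.S4.PsiProps

/-!
# Subfields of Galois extensions of `K` of degree a power of a prime are towers
-/

set_option autoImplicit false

namespace Pool.Agent.Lib.MP_1a91b9_ntT.PT

open NumberField IsDedekindDomain Module
open Pool.Agent.Lib.MP_1a91b9_ntT.S5 (below mem_below exists_above below_below)
open Pool.Agent.Lib.MP_1a91b9_ntT.S4 (psi psiK psiK_mul psiK_one)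
open Pool.Agent.Lib.MP_1a91b9_ntT.DS (TowerL)
open Pool.Agent.Lib.MP_1a91b9_ntG (Ram)

universe u

/-- The ramification condition. -/
def RamL (ℓ : ℕ) (F : Type*) [Field F] [NumberField F] [Algebra K F] : Prop :=
  ∀ q : HeightOneSpectrum (𝓞 K), Ram F q → (ℓ : 𝓞 K) ∉ q.asIdeal ∧
    ((3 : 𝓞 K) ∉ q.asIdeal → IsCoprime (psiK q.asIdeal - 1) (ℓ : 𝓞 K))

/-- The coprimality of `ψ - 1` goes up. -/
def CP (ℓ : ℕ) (F : Type*) [Field F] [NumberField F] [Algebra K F] : Prop :=
  ∀ v : HeightOneSpectrum (𝓞 F), IsCoprime (psiK (below K v).asIdeal - 1) (ℓ : 𝓞 K) →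
    IsCoprime (psi F v.asIdeal - 1) (ℓ : 𝓞 K)

theorem psiK_pow (I : Ideal (𝓞 K)) (n : ℕ) : psiK (I ^ n) = psiK I ^ n := by
  induction n with
  | zero => rw [pow_zero, pow_zero, psiK_one]
  | succ n ih => rw [pow_succ, psiK_mul, ih, pow_succ]

theorem cop_pow {ℓ : ℕ} (hℓ : ℓ.Prime) {a : 𝓞 K} (h : IsCoprime (a - 1) (ℓ : 𝓞 K)) {f : ℕ}
    (hf : f ∣ ℓ) : IsCoprime (a ^ f - 1) (ℓ : 𝓞 K) := by
  rcases (Nat.dvd_prime hℓ).1 hf with rfl | rfl
  · rwa [pow_one]
  · obtain ⟨c, hc⟩ : (f : 𝓞 K) ∣ (a ^ f - 1) - (a - 1) ^ f := by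
      have h1 := exists_add_pow_prime_eq hℓ (a - 1) 1
      obtain ⟨r, hr⟩ := h1
      rw [sub_add_cancel] at hr
      exact ⟨(a - 1) * 1 * r, by rw [hr]; ring⟩
    have h2 : IsCoprime ((a - 1) ^ f) (f : 𝓞 K) := h.pow_left
    have h3 : a ^ f - 1 = (a - 1) ^ f + (f : 𝓞 K) * c := by rw [← hc]; ring
    rw [h3]
    exact h2.add_mul_left_left c

theorem CP.up {ℓ : ℕ} (hℓ : ℓ.Prime) {F F' : Type*} [Field F] [NumberField F] [Field F']
    [NumberField F'] [Algebra K F] [Algebra K F'] [Algebra F F'] [IsScalarTower K F F']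
    [IsGalois F F'] (hd : finrank F F' = ℓ) (h : CP ℓ F) : CP ℓ F' := by
  intro w hw
  have hwm : w.asIdeal.IsMaximal := w.isMaximal
  have hvm : (below F w).asIdeal.IsMaximal := (below F w).isMaximal
  have hlo : w.asIdeal.LiesOver (below F w).asIdeal := ⟨rfl⟩
  have h1 : Ideal.relNorm (𝓞 F) w.asIdeal = (below F w).asIdeal ^ w.asIdeal.inertiaDeg (𝓞 F) :=
    Ideal.relNorm_eq_pow_of_isMaximal w.asIdeal (below F w).asIdeal
  have hst : IsScalarTower (𝓞 K) (𝓞 F) (𝓞 F') := IsScalarTower.of_algebraMap_eq fun x =>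
    (MP_1a91b9_ntT3.S8.algebraMap_tower (F := F) (F' := F') x).symm
  have h2 : Ideal.relNorm (𝓞 K) w.asIdeal =
      Ideal.relNorm (𝓞 K) (Ideal.relNorm (𝓞 F) w.asIdeal) :=
    (Ideal.relNorm_relNorm (𝓞 K) (𝓞 F) w.asIdeal).symm
  have h3 : psi F' w.asIdeal = psi F (below F w).asIdeal ^ w.asIdeal.inertiaDeg (𝓞 F) := by
    rw [psi, h2, h1, map_pow, psiK_pow]
    rfl
  rw [h3]
  refine cop_pow hℓ (h (below F w) ?_) ?_
  · rw [below_below]
    exact hw
  · rw [← hd]
    exact (MP_1a91b9_ntT3.EF.ef_dvd (below F w) w rfl).1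

theorem psi_base {F : Type*} [Field F] [NumberField F] [Algebra K F]
    (h : Function.Bijective (algebraMap K F)) (v : HeightOneSpectrum (𝓞 F)) :
    psi F v.asIdeal = psiK (below K v).asIdeal := by
  have hwm : v.asIdeal.IsMaximal := v.isMaximal
  have hvm : (below K v).asIdeal.IsMaximal := (below K v).isMaximal
  have hlo : v.asIdeal.LiesOver (below K v).asIdeal := ⟨rfl⟩
  have hsurj : Function.Surjective (algebraMap (𝓞 K) (𝓞 F)) := by
    intro t
    obtain ⟨y, hy⟩ := h.2 (t : F)
    have hint : IsIntegral ℤ y := by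
      have h1 : IsIntegral ℤ (algebraMap K F y) := by
        rw [hy]
        exact RingOfIntegers.isIntegral_coe t
      exact (isIntegral_algebraMap_iff h.1).1 h1
    exact ⟨⟨y, hint⟩, RingOfIntegers.ext hy⟩
  have h1 : v.asIdeal = Ideal.map (algebraMap (𝓞 K) (𝓞 F)) (below K v).asIdeal := by
    exact (Ideal.map_comap_of_surjective _ hsurj v.asIdeal).symm
  have hinj : Function.Injective (algebraMap (𝓞 K) (𝓞 F)) :=
    FaithfulSMul.algebraMap_injective _ _
  have hfin : finrank (𝓞 K) (𝓞 F) = 1 :=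
    (LinearEquiv.ofBijective (Algebra.linearMap (𝓞 K) (𝓞 F)) ⟨hinj, hsurj⟩).finrank_eq.symm.trans
      (finrank_self (𝓞 K))
  have h2 : Ideal.relNorm (𝓞 K) v.asIdeal = (below K v).asIdeal := by
    conv_lhs => rw [h1]
    rw [Ideal.relNorm_algebraMap, hfin, pow_one]
  rw [psi, h2]

theorem cp_base {ℓ : ℕ} {F : Type*} [Field F] [NumberField F] [Algebra K F]
    (h : Function.Bijective (algebraMap K F)) : CP ℓ F := by
  intro v hv
  rw [psi_base h]
  exact hv

/-- `TowerL` is invariant under isomorphisms of `K`-algebras. -/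
theorem towerL_congr {ℓ : ℕ} {F : Type u} [Field F] [NumberField F] [Algebra K F]
    (h : TowerL ℓ F) : ∀ (F₂ : Type u) [Field F₂] [NumberField F₂] [Algebra K F₂]
      (_ : F ≃ₐ[K] F₂), TowerL ℓ F₂ := by
  intro F₂ _ _ _ e
  cases h with
  | base F hb =>
    refine TowerL.base F₂ ?_
    have h1 : (algebraMap K F₂ : K → F₂) = e ∘ algebraMap K F := by
      funext x
      exact (e.commutes x).symm
    rw [h1]
    exact e.bijective.comp hb
  | step N F hG hr hu ha h =>
    let alg : Algebra N F₂ := (e.toRingEquiv.toRingHom.comp (algebraMap N F)).toAlgebra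
    have hmap : ∀ y : N, algebraMap N F₂ y = e (algebraMap N F y) := fun y => rfl
    have hst : IsScalarTower K N F₂ := IsScalarTower.of_algebraMap_eq fun x => by
      rw [hmap, ← IsScalarTower.algebraMap_apply K N F, e.commutes]
    let e' : F ≃ₐ[N] F₂ := AlgEquiv.ofRingEquiv (f := e.toRingEquiv) fun y => rfl
    have hG2 : IsGalois N F₂ := IsGalois.of_algEquiv e'
    have hr2 : finrank N F₂ = ℓ := by rw [← e'.toLinearEquiv.finrank_eq, hr]
    let alg2 : Algebra F₂ F := e'.symm.toRingEquiv.toRingHom.toAlgebra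
    have hst2 : IsScalarTower N F₂ F := IsScalarTower.of_algebraMap_eq fun x =>
      (e'.symm.commutes x).symm
    have hram : ∀ v : HeightOneSpectrum (𝓞 N), Ram F₂ v → Ram F v := fun v hv =>
      MP_1a91b9_ntT3.S8.ram_up v hv
    exact TowerL.step N F₂ hG2 hr2 (fun v h3 hv => hu v h3 (hram v hv))
      (fun v hv => ha v (hram v hv)) h

theorem tower_inter {ℓ : ℕ} (hℓ : ℓ.Prime) {M : Type u} [Field M] [NumberField M] [Algebra K M]
    [IsGalois K M] (n : ℕ) (hM : finrank K M = ℓ ^ n) (k : ℕ) :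
    ∀ E' : IntermediateField K M, finrank K E' = k → RamL ℓ E' → TowerL ℓ E' ∧ CP ℓ E' := by
  induction k using Nat.strong_induction_on with
  | _ k ih =>
    intro E' hk hr
    by_cases hE : finrank K E' = 1
    · have hbot : E' = ⊥ := IntermediateField.finrank_eq_one_iff.1 hE
      have hb : Function.Bijective (algebraMap K E') := by
        refine ⟨(algebraMap K E').injective, fun y => ?_⟩
        have hy : (y : M) ∈ (⊥ : IntermediateField K M) := hbot ▸ y.2
        obtain ⟨r, hr⟩ := IntermediateField.mem_bot.1 hy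
        exact ⟨r, Subtype.ext hr⟩
      exact ⟨TowerL.base _ hb, cp_base hb⟩
    · have hfd : FiniteDimensional K M := Module.Finite.of_restrictScalars_finite ℚ K M
      have hcardG : Nat.card Gal(M/K) = ℓ ^ n := by
        rw [IsGalois.card_aut_eq_finrank, hM]
      have hmul : finrank K E' * finrank E' M = ℓ ^ n := by
        rw [Module.finrank_mul_finrank, hM]
      have hcardH : Nat.card E'.fixingSubgroup = finrank E' M :=
        IsGalois.card_fixingSubgroup_eq_finrank E'
      obtain ⟨m, hmn, hm⟩ : ∃ m ≤ n, finrank E' M = ℓ ^ m :=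
        (Nat.dvd_prime_pow hℓ).1 ⟨_, by rw [← hmul]; ring⟩
      have hmlt : m < n := by
        rcases hmn.lt_or_eq with h | h
        · exact h
        · exfalso
          apply hE
          rw [hm, h] at hmul
          exact Nat.eq_of_mul_eq_mul_right (pow_pos hℓ.pos n) (by rw [hmul, one_mul])
      have hfact : Fact (Nat.Prime ℓ) := ⟨hℓ⟩
      obtain ⟨H, hHcard, hHle⟩ := Sylow.exists_subgroup_card_pow_succ (p := ℓ) (n := m)
        (by rw [hcardG]; exact pow_dvd_pow ℓ hmlt) (H := E'.fixingSubgroup) (by rw [hcardH, hm])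
      set E'' : IntermediateField K M := IntermediateField.fixedField H with hE''
      have hle : E'' ≤ E' := by
        have h1 := IntermediateField.fixedField_antitone (F := K) (E := M) hHle
        rwa [IsGalois.fixedField_fixingSubgroup] at h1
      have hdeg : finrank E'' M = ℓ ^ (m + 1) := by
        rw [← hHcard, hE'']
        exact IntermediateField.finrank_fixedField_eq_card H
      have hmul2 : finrank K E'' * finrank E'' M = ℓ ^ n := by
        rw [Module.finrank_mul_finrank, hM]
      have hdbl : finrank K E' = ℓ * finrank K E'' := by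
        have hp : 0 < ℓ ^ m := pow_pos hℓ.pos m
        rw [hdeg, ← hmul, hm, pow_succ] at hmul2
        have h3 : ℓ ^ m * (ℓ * finrank K E'') = ℓ ^ m * finrank K E' := by
          rw [mul_comm (ℓ ^ m) (finrank K E'), ← hmul2]
          ring
        exact (Nat.eq_of_mul_eq_mul_left hp h3).symm
      let alg : Algebra E'' E' := (IntermediateField.inclusion hle).toRingHom.toAlgebra
      have hst : IsScalarTower K E'' E' :=
        IsScalarTower.of_algebraMap_eq fun x => ((IntermediateField.inclusion hle).commutes x).symm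
      have hst2 : IsScalarTower E'' E' M := IsScalarTower.of_algebraMap_eq fun x => rfl
      have hpos : 0 < finrank K E'' := finrank_pos
      have hcub : finrank E'' E' = ℓ := by
        have h4 := Module.finrank_mul_finrank K E'' E'
        rw [hdbl, mul_comm] at h4
        exact Nat.eq_of_mul_eq_mul_right hpos h4
      have hG : IsGalois E'' E' := by
        have h5 : IsGalois E'' M := inferInstance
        exact MP_1a91b9_ntT3.S8.galois_of_prime (M := M) hℓ hdeg hcub
      have hr'' : RamL ℓ E'' := fun q hq => hr q (MP_1a91b9_ntT3.S8.ram_up q hq)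
      have hlt : finrank K E'' < k := by
        rw [← hk, hdbl]
        exact lt_mul_of_one_lt_left hpos hℓ.one_lt
      obtain ⟨hT, hCP⟩ := ih (finrank K E'') hlt E'' rfl hr''
      refine ⟨TowerL.step E'' E' hG hcub ?_ ?_ hT, hCP.up hℓ hcub⟩
      · intro v h3 hv
        have h4 := (hr _ (MP_1a91b9_ntT3.S8.ram_down (k := K) v hv)).1
        apply h4
        rw [mem_below, map_natCast]
        exact h3
      · intro v hv hpi
        refine hCP v ?_
        refine (hr _ (MP_1a91b9_ntT3.S8.ram_down (k := K) v hv)).2 ?_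
        rw [mem_below, map_ofNat]
        exact hpi

/-- Subfields of Galois extensions of `K` of degree a power of `ℓ`, with the ramification
condition, are towers. -/
theorem towerL_of_galois {ℓ : ℕ} (hℓ : ℓ.Prime) (F M : Type u) [Field F] [NumberField F]
    [Field M] [NumberField M] [Algebra K F] [Algebra K M] [Algebra F M] [IsScalarTower K F M]
    [IsGalois K M] (n : ℕ) (hM : finrank K M = ℓ ^ n) (hF : RamL ℓ F) : TowerL ℓ F := by
  let f : F →ₐ[K] M := IsScalarTower.toAlgHom K F M
  let e : F ≃ₐ[K] f.fieldRange := AlgEquiv.ofInjectiveField f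
  have hr : RamL ℓ f.fieldRange := by
    intro q hq
    apply hF q
    let alg2 : Algebra f.fieldRange F := e.symm.toRingEquiv.toRingHom.toAlgebra
    have hst2 : IsScalarTower K f.fieldRange F := IsScalarTower.of_algebraMap_eq fun x =>
      (e.symm.commutes x).symm
    exact MP_1a91b9_ntT3.S8.ram_up q hq
  exact towerL_congr (tower_inter hℓ n hM _ f.fieldRange rfl hr).1 F e.symm

end Pool.Agent.Lib.MP_1a91b9_ntT.PT
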