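import Pool.Agent.Lib.MP_1a91b9_ntT.S8.Chain
import Pool.Agent.Lib.MP_1a91b9_ntT.S3.Card

/-!
# The case `ℓ = 2`

(1) `exists_closure_two`. Let `pb = Field.powerBasisOfFiniteOfSeparable ℚ M`, `P = minpoly ℚ pb.gen`, `M' = P.SplittingField`
(in `Type` since `P : ℚ[X]`; number field; Galois over `ℚ`: `IsGalois.of_separable_splitting_field`). Every root `β` of `P`
in `M'` gives `f = pb.lift β hβ : M →ₐ[ℚ] M'` with `f pb.gen = β`. Let `σ : Gal(M'/ℚ)`. Since `K/ℚ` is Galois of degree `2`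
(`S3.finrank_K`, `IsCyclotomicExtension.isGalois {3} ℚ K`), `σ (f (algebraMap K M x)) = f (algebraMap K M (c x))` for some
`c : Gal(K/ℚ)` (`AlgEquiv.restrictNormal` for the `K`-algebra structure on `M'` given by `f ∘ algebraMap K M`), `c ^ 2 = 1`
(order of the group is `2`), so `σ ^ 2` fixes `f (K)`. Then `σ ^ 2 (f y) = f (g y)` for some `g : Gal(M/K)`
(`restrictNormal` over `K`), `g ^ (2 ^ n) = 1`, so `σ ^ (2 ^ (n + 1))` fixes `f pb.gen = β`. The roots generate `M'`, so
`σ ^ (2 ^ (n + 1)) = 1` for all `σ`, `IsPGroup 2 Gal(M'/ℚ)`, `IsPGroup.iff_card`, `IsGalois.card_aut_eq_finrank`.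
The algebra structure `M → M'`: any `f` (there is a root: `P.SplittingField` splits `P`, degree ≥ 1).

(2) `ramCond_of_card`: `p ≠ 2, 3`, `x ^ 3 = 2` in `ZMod p`; the point `(-x/2, -1/2)` has order `2`
(`odd_card_fermat` in S4/OddCount.lean, MP_1a91b9_ntT3/Card3.lean are models).
-/

set_option autoImplicit false

namespace Pool.Agent.Lib.MP_1a91b9_ntT.PT

open NumberField Module

/-- a power of an automorphism fixes the image of `M` -/
private theorem two_fix {M M' : Type*} [Field M] [NumberField M] [Algebra K M] [IsGalois K M]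
    [Field M'] [NumberField M'] (n : ℕ) (hM : finrank K M = 2 ^ n) (f : M →ₐ[ℚ] M')
    (σ : M' ≃ₐ[ℚ] M') (y : M) : (σ ^ (2 ^ (n + 1))) (f y) = f y := by
  let i1 : Algebra K M' := ((f : M →+* M').comp (algebraMap K M)).toAlgebra
  let i2 : Algebra M M' := (f : M →+* M').toAlgebra
  have h0 : IsScalarTower K M M' := IsScalarTower.of_algebraMap_eq fun x => rfl
  have hQK : IsScalarTower ℚ K M' := IsScalarTower.of_algebraMap_eq fun x => by
    rw [eq_ratCast, eq_ratCast, map_ratCast]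
  have hG : IsGalois ℚ K := IsCyclotomicExtension.isGalois {3} ℚ K
  have h1 : (AlgEquiv.restrictNormalHom K σ) ^ 2 = 1 := by
    have hc : Nat.card (K ≃ₐ[ℚ] K) = 2 := by
      rw [IsGalois.card_aut_eq_finrank, S3.finrank_K]
    rw [← hc]
    exact pow_card_eq_one'
  have h2 : ∀ x : K, (σ ^ 2) (algebraMap K M' x) = algebraMap K M' x := by
    intro x
    have h3 := AlgEquiv.restrictNormal_commutes (σ ^ 2) K x
    have h4 : (σ ^ 2).restrictNormal K = 1 := by
      have h5 : AlgEquiv.restrictNormalHom K (σ ^ 2) = 1 := by rw [map_pow, h1]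
      exact h5
    rw [h4] at h3
    exact h3.symm
  let τ : M' ≃ₐ[K] M' := AlgEquiv.ofRingEquiv (f := ((σ ^ 2 : M' ≃ₐ[ℚ] M') : M' ≃+* M')) h2
  have hτ : ∀ (k : ℕ) (z : M'), (τ ^ k) z = ((σ ^ 2) ^ k) z := by
    intro k
    induction k with
    | zero => intro z; rfl
    | succ k ih =>
      intro z
      rw [pow_succ, pow_succ, AlgEquiv.mul_apply, AlgEquiv.mul_apply, ih]
      rfl
  have h3 : (AlgEquiv.restrictNormalHom M τ) ^ (2 ^ n) = 1 := by
    have hc : Nat.card (M ≃ₐ[K] M) = 2 ^ n := by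
      rw [IsGalois.card_aut_eq_finrank, hM]
    rw [← hc]
    exact pow_card_eq_one'
  have h4 := AlgEquiv.restrictNormal_commutes (τ ^ (2 ^ n)) M y
  have h5 : (τ ^ (2 ^ n)).restrictNormal M = 1 := by
    have h6 : AlgEquiv.restrictNormalHom M (τ ^ (2 ^ n)) = 1 := by rw [map_pow, h3]
    exact h6
  rw [h5, hτ, ← pow_mul, ← pow_succ'] at h4
  exact h4.symm

theorem exists_closure_two (M : Type) [Field M] [NumberField M] [Algebra K M] [IsGalois K M]
    (n : ℕ) (hM : finrank K M = 2 ^ n) :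
    ∃ (M' : Type) (_ : Field M') (_ : NumberField M') (_ : Algebra M M') (m : ℕ),
      IsGalois ℚ M' ∧ finrank ℚ M' = 2 ^ m := by
  classical
  obtain ⟨pb⟩ : Nonempty (PowerBasis ℚ M) := ⟨Field.powerBasisOfFiniteOfSeparable ℚ M⟩
  obtain ⟨P, hP⟩ : ∃ P : Polynomial ℚ, P = minpoly ℚ pb.gen := ⟨_, rfl⟩
  have hP0 : P ≠ 0 := by
    rw [hP]
    exact minpoly.ne_zero pb.isIntegral_gen
  have hirr : Irreducible P := by
    rw [hP]
    exact minpoly.irreducible pb.isIntegral_gen
  have hfd : FiniteDimensional ℚ P.SplittingField := inferInstance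
  have hnf : NumberField P.SplittingField := ⟨⟩
  have hspl : Polynomial.IsSplittingField ℚ P.SplittingField P := by
    have h := Polynomial.IsSplittingField.splittingField P
    have e : ∀ i1 i2 : Algebra ℚ P.SplittingField,
        @Polynomial.IsSplittingField ℚ P.SplittingField _ _ i1 P →
        @Polynomial.IsSplittingField ℚ P.SplittingField _ _ i2 P := by
      intro i1 i2 h
      rw [Subsingleton.elim i2 i1]
      exact h
    exact e _ _ h
  have hgal : IsGalois ℚ P.SplittingField :=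
    IsGalois.of_separable_splitting_field (p := P) hirr.separable
  have hlift : ∀ β ∈ P.rootSet P.SplittingField, ∃ f : M →ₐ[ℚ] P.SplittingField,
      f pb.gen = β := by
    intro β hβ
    have h1 : Polynomial.aeval β (minpoly ℚ pb.gen) = 0 := by
      rw [← hP]
      exact Polynomial.aeval_eq_zero_of_mem_rootSet hβ
    exact ⟨pb.lift β h1, pb.lift_gen β h1⟩
  have hone : ∀ σ : P.SplittingField ≃ₐ[ℚ] P.SplittingField, σ ^ (2 ^ (n + 1)) = 1 := by
    intro σ
    have h1 : ((σ ^ (2 ^ (n + 1)) : P.SplittingField ≃ₐ[ℚ] P.SplittingField) :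
        P.SplittingField →ₐ[ℚ] P.SplittingField) = AlgHom.id ℚ _ := by
      refine AlgHom.ext_of_adjoin_eq_top (Polynomial.SplittingField.adjoin_rootSet P) ?_
      intro β hβ
      obtain ⟨f, rfl⟩ := hlift β hβ
      exact two_fix n hM f σ pb.gen
    ext z
    exact DFunLike.congr_fun h1 z
  have hfact : Fact (Nat.Prime 2) := ⟨Nat.prime_two⟩
  have hpg : IsPGroup 2 (P.SplittingField ≃ₐ[ℚ] P.SplittingField) := fun σ => ⟨n + 1, hone σ⟩
  obtain ⟨m, hm⟩ := IsPGroup.iff_card.1 hpg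
  have hdeg : P.degree ≠ 0 := by
    intro h
    exact hirr.not_isUnit (Polynomial.isUnit_iff_degree_eq_zero.2 h)
  obtain ⟨β, hβ⟩ : ∃ β, β ∈ P.rootSet P.SplittingField := by
    have hs := Polynomial.SplittingField.splits P
    obtain ⟨β, hβ⟩ := hs.exists_eval_eq_zero (by
      rwa [Polynomial.degree_map])
    exact ⟨β, by
      rw [Polynomial.mem_rootSet]
      exact ⟨hP0, by rwa [Polynomial.eval_map_algebraMap] at hβ⟩⟩
  obtain ⟨f, -⟩ := hlift β hβ
  refine ⟨P.SplittingField, inferInstance, hnf, (f : M →+* P.SplittingField).toAlgebra, m, hgal, ?_⟩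
  rw [← IsGalois.card_aut_eq_finrank, hm]

theorem ramCond_of_card (L : Type) [Field L] [NumberField L]
    (hL : ∀ p : ℕ, p.Prime → p ≠ 3 → (p : ℤ) ∣ discr L → p ≠ 2 ∧
      ¬ 2 ∣ Nat.card (⟨0, 0, 1, 0, 0⟩ : WeierstrassCurve (ZMod p)).toAffine.Point) :
    S8.RamCond L := by
  intro p hp hp3 hd x hx
  obtain ⟨hp2, hc⟩ := hL p hp hp3 hd
  apply hc
  have hfact : Fact p.Prime := ⟨hp⟩
  have h2 : (2 : ZMod p) ≠ 0 := by
    intro h
    have h1 : ((2 : ℕ) : ZMod p) = 0 := by exact_mod_cast h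
    rw [ZMod.natCast_eq_zero_iff] at h1
    exact hp2 ((Nat.prime_dvd_prime_iff_eq hp Nat.prime_two).1 h1)
  have h3 : (3 : ZMod p) ≠ 0 := by
    intro h
    have h1 : ((3 : ℕ) : ZMod p) = 0 := by exact_mod_cast h
    rw [ZMod.natCast_eq_zero_iff] at h1
    exact hp3 ((Nat.prime_dvd_prime_iff_eq hp Nat.prime_three).1 h1)
  have hx0 : x ≠ 0 := by
    rintro rfl
    rw [zero_pow (by norm_num)] at hx
    exact h2 hx.symm
  have hN : (⟨0, 0, 1, 0, 0⟩ : WeierstrassCurve (ZMod p)).toAffine.Nonsingular (-x / 2) (-1 / 2) := by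
    rw [WeierstrassCurve.Affine.nonsingular_iff, WeierstrassCurve.Affine.equation_iff]
    refine ⟨?_, Or.inl ?_⟩
    · field_simp
      linear_combination hx
    · intro h
      have h4 : 3 * x ^ 2 = 0 := by
        field_simp at h
        linear_combination -h
      exact mul_ne_zero h3 (pow_ne_zero 2 hx0) h4
  have hP : (WeierstrassCurve.Affine.Point.some _ _ hN : (⟨0, 0, 1, 0, 0⟩ :
      WeierstrassCurve (ZMod p)).toAffine.Point) ≠ 0 := WeierstrassCurve.Affine.Point.some_ne_zero _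
  have hneg : -(WeierstrassCurve.Affine.Point.some _ _ hN : (⟨0, 0, 1, 0, 0⟩ :
      WeierstrassCurve (ZMod p)).toAffine.Point) = WeierstrassCurve.Affine.Point.some _ _ hN := by
    rw [WeierstrassCurve.Affine.Point.neg_some]
    congr 1
    simp only [WeierstrassCurve.Affine.negY]
    field_simp
    ring
  have ho : addOrderOf (WeierstrassCurve.Affine.Point.some _ _ hN : (⟨0, 0, 1, 0, 0⟩ :
      WeierstrassCurve (ZMod p)).toAffine.Point) = 2 := by
    refine addOrderOf_eq_prime ?_ hP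
    rw [two_nsmul]
    exact add_eq_zero_iff_eq_neg.2 hneg.symm
  rw [← ho]
  exact addOrderOf_dvd_natCard _

end Pool.Agent.Lib.MP_1a91b9_ntT.PT
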