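import Pool.Agent.Lib.MP_1a91b9_ntT.PT.Dat
import Pool.Agent.Lib.MP_1a91b9_ntT.PT.Two
import Pool.Agent.Lib.MP_1a91b9_ntT.DS.Main
import Pool.Agent.Lib.MP_1a91b9_ntT.TW.IsoE

/-!
# The theorem for all primes `ℓ ≠ 3`
-/

set_option autoImplicit false

namespace Pool.Agent.Lib.MP_1a91b9_ntT.PT

open NumberField IsDedekindDomain Module

/-- Change of the model of the base field. -/
theorem exists_base (K₀ M : Type) [Field K₀] [NumberField K₀] [IsCyclotomicExtension {3} ℚ K₀]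
    [Field M] [NumberField M] [Algebra K₀ M] [IsGalois K₀ M] {d : ℕ} (hM : finrank K₀ M = d) :
    ∃ _ : Algebra K M, IsGalois K M ∧ finrank K M = d := by
  have hζ := IsCyclotomicExtension.zeta_spec 3 ℚ K₀
  obtain ⟨w, hw⟩ : ∃ w : K₀, w = IsCyclotomicExtension.zeta 3 ℚ K₀ := ⟨_, rfl⟩
  have hw2 : w ^ 2 + w + 1 = 0 := by
    rw [hw]
    have h1 := hζ.isRoot_cyclotomic (by norm_num)
    rw [Polynomial.cyclotomic_three] at h1
    simpa [Polynomial.IsRoot] using h1
  have hK : finrank ℚ K₀ = 2 := by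
    rw [IsCyclotomicExtension.finrank (n := 3) K₀ (Polynomial.cyclotomic.irreducible_rat
      (by norm_num))]
    rfl
  obtain ⟨e, he⟩ := MP_1a91b9_ntT3.S8.exists_equiv hK hw2
  let aM : Algebra K M := ((algebraMap K₀ M).comp e.toRingHom).toAlgebra
  have hMe : ∀ x : K, algebraMap K M x = algebraMap K₀ M (e x) := fun x => rfl
  have hfin : finrank K M = d := by
    have h1 := finrank_mul_finrank ℚ K M
    have h2 := finrank_mul_finrank ℚ K₀ M
    rw [S3.finrank_K] at h1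
    rw [hK, hM] at h2
    omega
  refine ⟨aM, ?_, hfin⟩
  have hcard : Nat.card (M ≃ₐ[K] M) = finrank K M := by
    have h1 : Nat.card (M ≃ₐ[K₀] M) = finrank K₀ M := IsGalois.card_aut_eq_finrank K₀ M
    rw [hfin, ← hM, ← h1]
    refine Nat.card_congr ⟨fun σ => AlgEquiv.ofRingEquiv (f := σ.toRingEquiv) fun x => ?_,
      fun σ => AlgEquiv.ofRingEquiv (f := σ.toRingEquiv) fun x => ?_, fun σ => ?_, fun σ => ?_⟩
    · obtain ⟨y, rfl⟩ := e.surjective x
      rw [← hMe]
      exact σ.commutes y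
    · rw [hMe]
      exact σ.commutes (e x)
    · ext x
      rfl
    · ext x
      rfl
  exact IsGalois.of_card_aut_eq_finrank K M hcard

/-- The theorem for `K`. -/
theorem main_K {ℓ : ℕ} (hℓ : ℓ.Prime) (h3 : ℓ ≠ 3) (N L M : Type) [Field N] [NumberField N]
    [Field L] [NumberField L] [Field M] [NumberField M] [Algebra N L] [Algebra L M] [Algebra K M]
    [IsGalois K M] (n : ℕ) (hM : finrank K M = ℓ ^ n) (hL : RamP ℓ L) (W : WeierstrassCurve N)
    (C : WeierstrassCurve.VariableChange L) (hC : C • W.baseChange L = ⟨0, 0, 1, 0, 0⟩) :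
    (∃ g : ℂ → ℂ, Differentiable ℂ g ∧ (∀ s : ℂ, 3 / 2 < s.re → g s = W.LSeries s) ∧
      g 1 ≠ 0) ∧ Finite W.toAffine.Point := by
  by_cases h2 : ℓ = 2
  · subst h2
    obtain ⟨M', _, _, aMM', m, hG, hm⟩ := exists_closure_two M n hM
    let aLM' : Algebra L M' := ((algebraMap M M').comp (algebraMap L M)).toAlgebra
    exact TW.iso_entire N L M' m hm (ramCond_of_card L hL) W C hC
  · have h5 : 5 ≤ ℓ := by
      have h4 := hℓ.two_le
      by_contra hlt
      have h6 : ℓ = 4 := by omega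
      rw [h6] at hℓ
      revert hℓ
      decide
    obtain ⟨hN, hdat⟩ := exists_dat hℓ h3 N L M n hM hL
    refine DW.twist_main N L M ?_ ?_ hN ?_ W C hC
    · rw [hM]
      intro h
      exact h2 ((Nat.prime_dvd_prime_iff_eq Nat.prime_two hℓ).1
        (Nat.prime_two.dvd_of_dvd_pow h)).symm
    · rw [hM]
      intro h
      exact h3 ((Nat.prime_dvd_prime_iff_eq Nat.prime_three hℓ).1
        (Nat.prime_three.dvd_of_dvd_pow h)).symm
    · rcases hdat with ⟨a, h⟩ | ⟨F, i1, i2, i3, i4, h1, h2, h⟩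
      · exact Or.inl ⟨a, DS.mainD hℓ h5 N h⟩
      · exact Or.inr ⟨F, i1, i2, i3, i4, h1, h2, DS.mainD hℓ h5 F h⟩

end Pool.Agent.Lib.MP_1a91b9_ntT.PT
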