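import Pool.Agent.Lib.MP_1a91b9_ntT.PT.Tow
import Pool.Agent.Lib.MP_1a91b9_ntT.S4.OddCount
import Pool.Agent.Lib.MP_1a91b9_ntT.S4.ConjPsi
import Pool.Agent.Lib.MP_1a91b9_ntT.D6.KQ
import Pool.Agent.Lib.MP_1a91b9_nt.QuadCount

/-!
# `ψ - 1` is prime to `ℓ` when the number of points modulo `p` is
-/

set_option autoImplicit false

namespace Pool.Agent.Lib.MP_1a91b9_ntT.PT

open NumberField IsDedekindDomain Module Polynomial WeierstrassCurve
open Pool.Agent.Lib.MP_1a91b9_ntT.S5 (below mem_below)
open Pool.Agent.Lib.MP_1a91b9_ntT.S4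
open Pool.Agent.Lib.MP_1a91b9_nt

theorem card_le {k k' : Type*} [Field k] [Field k'] [Finite k'] (f : k →+* k')
    (W' : WeierstrassCurve k') (h : (fermatCubic k).map f = W') :
    Nat.card (fermatCubic k).toAffine.Point ≤ Nat.card W'.toAffine.Point := by
  subst h
  let a : Algebra k k' := f.toAlgebra
  have hf' : Finite ((fermatCubic k).map f).toAffine.Point :=
    Finite.of_equiv _ (pointEquivOption _).symm
  exact Nat.card_le_card_of_injective _ (qcIncl_injective (k' := k') (fermatCubic k))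

/-- The number of points is invariant under isomorphisms of fields. -/
theorem card_equiv {k k' : Type*} [Field k] [Field k'] [Finite k] [Finite k'] (e : k ≃+* k') :
    Nat.card (fermatCubic k).toAffine.Point = Nat.card (fermatCubic k').toAffine.Point :=
  le_antisymm (card_le e.toRingHom _ (fermatCubic_map _))
    (card_le e.symm.toRingHom _ (fermatCubic_map _))

theorem psi_self (q : HeightOneSpectrum (𝓞 K)) : psi K q.asIdeal = psiK q.asIdeal := by
  rw [psi_base Function.bijective_id q]
  have h : below K q = q := by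
    apply HeightOneSpectrum.ext
    ext x
    exact Iff.rfl
  rw [h]

theorem psi_prod (q : HeightOneSpectrum (𝓞 K)) (h3 : (3 : 𝓞 K) ∉ q.asIdeal) :
    (1 - psiC K q.asIdeal) * (1 - psibC K q.asIdeal) =
      ((Nat.card (fermatCubic (IsLocalRing.ResidueField
        (q.adicCompletionIntegers K))).toAffine.Point : ℕ) : ℂ) := by
  have hmodel : locPoly ((E K).baseChange K) q = _ :=
      locPoly_of_model (F := K) (K := K) (E K) 1 (fermatCubic (𝓞 K)) (by
        rw [one_smul, fermatCubic_map]
        rfl) q (by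
        rw [fermatCubic_delta]
        intro hmem
        apply h3
        change algebraMap (𝓞 K) (𝓞 K) (-27) ∈ q.asIdeal at hmem
        rw [map_neg, map_ofNat] at hmem
        have e : (-27 : 𝓞 K) = -(3 ^ 3) := by norm_num
        rw [e] at hmem
        exact q.isPrime.mem_of_pow_mem 3 (by simpa using q.asIdeal.neg_mem hmem))
  have hbc : (E K).baseChange K = E K := WeierstrassCurve.map_id _
  rw [hbc, fermatCubic_map] at hmodel
  have h1 := (psi_place q h3).2 1
  rw [mul_one, mul_one, hmodel] at h1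
  rw [← h1]
  simp only [map_add, map_sub, map_one, map_mul, aeval_X, map_pow, map_natCast]
  ring

theorem cop_of_res {ℓ : ℕ} (q : HeightOneSpectrum (𝓞 K)) (h3 : (3 : 𝓞 K) ∉ q.asIdeal)
    (hc : (Nat.card (fermatCubic (IsLocalRing.ResidueField
        (q.adicCompletionIntegers K))).toAffine.Point).Coprime ℓ) :
    IsCoprime (psiK q.asIdeal - 1) (ℓ : 𝓞 K) := by
  have h := psi_prod q h3
  rw [psibC, psiC, psi_self] at h
  refine Ell.kq_odd' _ _ hc (cO (psiK q.asIdeal) - 1) ?_
  have hinj : Function.Injective (fun x : 𝓞 K => embK (x : K)) := fun x y hxy =>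
    RingOfIntegers.ext (embK.toRingHom.injective hxy)
  apply hinj
  change embK (algebraMap (𝓞 K) K _) = embK (algebraMap (𝓞 K) K _)
  rw [map_mul, map_sub, map_sub, map_one, map_natCast, map_mul, map_sub, map_sub, map_one,
    map_natCast]
  have h2 : embK (algebraMap (𝓞 K) K (cO (psiK q.asIdeal))) =
      (starRingEnd ℂ) (embK (psiK q.asIdeal : K)) := embK_tau _
  rw [h2, ← h]
  ring

/-- `ψ - 1` is prime to `ℓ` when the number of points modulo `p` is. -/
theorem cop_of_card {ℓ : ℕ} (hℓ : ℓ.Prime) (q : HeightOneSpectrum (𝓞 K))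
    (h3 : (3 : 𝓞 K) ∉ q.asIdeal) {p : ℕ} (hp : p.Prime) (hpq : (p : 𝓞 K) ∈ q.asIdeal)
    (hc : ¬ ℓ ∣ Nat.card (⟨0, 0, 1, 0, 0⟩ : WeierstrassCurve (ZMod p)).toAffine.Point) :
    IsCoprime (psiK q.asIdeal - 1) (ℓ : 𝓞 K) := by
  have hfp : Fact p.Prime := ⟨hp⟩
  have hp3 : p ≠ 3 := by
    rintro rfl
    exact h3 (by exact_mod_cast hpq)
  have hcop : (Nat.card (fermatCubic (ZMod p)).toAffine.Point).Coprime ℓ :=
    Nat.Coprime.symm ((Nat.Prime.coprime_iff_not_dvd hℓ).2 hc)
  have h3' : ((3 : ℕ) : ZMod p) ≠ 0 := by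
    rw [Ne, ZMod.natCast_eq_zero_iff]
    exact fun h => hp3 ((Nat.prime_dvd_prime_iff_eq hp Nat.prime_three).1 h)
  have hmod : p % 3 = 1 ∨ p % 3 = 2 := by
    have h0 : p % 3 ≠ 0 := fun h =>
      hp3 ((Nat.prime_dvd_prime_iff_eq Nat.prime_three hp).1 (Nat.dvd_of_mod_eq_zero h)).symm
    omega
  rcases hmod with h1 | h2
  · -- split
    apply cop_of_res q h3
    have hfin : Finite (IsLocalRing.ResidueField (q.adicCompletionIntegers K)) := finite_residue q
    have hcard : Nat.card (IsLocalRing.ResidueField (q.adicCompletionIntegers K)) = p := by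
      have e1 : nrm q = Ideal.absNorm q.asIdeal := nrm_eq q
      have hqm : q.asIdeal.IsMaximal := q.isMaximal
      have hlo : q.asIdeal.LiesOver (Ideal.span {(p : ℤ)}) := by
        refine ⟨?_⟩
        have hpm : (Ideal.span {(p : ℤ)}).IsMaximal := by
          have hpi : Prime (p : ℤ) := Nat.prime_iff_prime_int.1 hp
          exact ((Ideal.span_singleton_prime hpi.ne_zero).2 hpi).isMaximal (by
            rw [Ne, Ideal.span_singleton_eq_bot]
            exact hpi.ne_zero)
        refine hpm.eq_of_le (Ideal.IsPrime.under ℤ q.asIdeal).ne_top ?_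
        rw [Ideal.span_singleton_le_iff_mem]
        change algebraMap ℤ (𝓞 K) (p : ℤ) ∈ q.asIdeal
        rw [map_natCast]
        exact hpq
      have h4 : Ideal.inertiaDeg q.asIdeal ℤ = orderOf (p : ZMod 3) :=
        IsCyclotomicExtension.Rat.inertiaDeg_eq_of_not_dvd p K q.asIdeal (fun h =>
          hp3 ((Nat.prime_dvd_prime_iff_eq hp Nat.prime_three).1 h))
      have h5 := Ideal.pow_inertiaDeg p q.asIdeal
      have h6 : (p : ZMod 3) = 1 := by
        rw [show (1 : ZMod 3) = ((1 : ℕ) : ZMod 3) by norm_num, ZMod.natCast_eq_natCast_iff]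
        rw [Nat.ModEq, h1]
      rw [h4, h6, orderOf_one, pow_one] at h5
      rw [nrm] at e1
      rw [e1, ← h5]
    have e : ZMod p ≃+* IsLocalRing.ResidueField (q.adicCompletionIntegers K) := by
      have := Fintype.ofFinite (IsLocalRing.ResidueField (q.adicCompletionIntegers K))
      exact ZMod.ringEquivOfPrime _ hp (by rw [← Nat.card_eq_fintype_card, hcard])
    rw [← card_equiv e]
    exact hcop
  · -- inert
    have hqp : q.asIdeal.IsPrime := q.isPrime
    have hq : q.asIdeal = Ideal.span {(p : 𝓞 K)} := u4_prime_two p h2 omO omO_eq q.asIdeal hpq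
    have hd3 : (3 : 𝓞 K) ∣ -(p : 𝓞 K) - 1 := by
      obtain ⟨m, hm⟩ : ∃ m : ℕ, p + 1 = 3 * m := ⟨(p + 1) / 3, by omega⟩
      refine ⟨-(m : 𝓞 K), ?_⟩
      have h := congrArg (Nat.cast (R := 𝓞 K)) hm
      push_cast at h
      linear_combination -h
    have hpsi : psiK q.asIdeal = -(p : 𝓞 K) := by
      have h := psiK_span _ hd3
      rwa [Ideal.span_singleton_neg, ← hq] at h
    have hcard := card_fermatCubic_of_two (k := ZMod p) (by exact_mod_cast h3') (by
      rw [Nat.card_zmod]
      omega)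
    rw [hcard, Nat.card_zmod] at hcop
    have h5 := Ell.kq_nat hcop
    have e : psiK q.asIdeal - 1 = -((p + 1 : ℕ) : 𝓞 K) := by
      rw [hpsi]
      push_cast
      ring
    rw [e]
    exact h5.neg_left

end Pool.Agent.Lib.MP_1a91b9_ntT.PT
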