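import Pool.Agent.Lib.MP_1a91b9_ntT.PT.Unr
import Pool.Agent.Lib.MP_1a91b9_ntT.PT.Cnt
import Pool.Agent.Lib.MP_1a91b9_ntT.S8.Cube
import Pool.Agent.Lib.MP_1a91b9_ntT.D7.NoCube
import Pool.Agent.Lib.MP_1a91b9_ntT3.S8.Trans

/-!
# Fields inside Galois extensions of `K` of degree a power of `ℓ`
-/

set_option autoImplicit false

namespace Pool.Agent.Lib.MP_1a91b9_ntT.PT

open NumberField IsDedekindDomain Module Polynomial IntermediateField
open Pool.Agent.Lib.MP_1a91b9_ntT.S5 (below mem_below exists_above val_below)
open Pool.Agent.Lib.MP_1a91b9_ntT.DS (TowerL)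
open Pool.Agent.Lib.MP_1a91b9_ntT.S4 (NoCube3)
open Pool.Agent.Lib.MP_1a91b9_ntG (Ram)

/-- The condition on the ramified primes. -/
def RamP (ℓ : ℕ) (L : Type) [Field L] [NumberField L] : Prop :=
  ∀ p : ℕ, p.Prime → p ≠ 3 → (p : ℤ) ∣ discr L → p ≠ ℓ ∧
    ¬ ℓ ∣ Nat.card (⟨0, 0, 1, 0, 0⟩ : WeierstrassCurve (ZMod p)).toAffine.Point

theorem exists_hom {F : Type*} [Field F] [CharZero F] {w : F} (hw : w ^ 2 + w + 1 = 0) :
    ∃ f : K →+* F, f om = w := by
  have hp := MP_1a91b9_ntT3.S8.prim_of_eq hw
  let f : K →ₐ[ℚ] F := (om_spec.embeddingsEquivPrimitiveRoots F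
    (Polynomial.cyclotomic.irreducible_rat (by norm_num))).symm
    ⟨w, (mem_primitiveRoots (by norm_num)).2 hp⟩
  refine ⟨f.toRingHom, ?_⟩
  have h := om_spec.embeddingsEquivPrimitiveRoots_apply_coe F
    (Polynomial.cyclotomic.irreducible_rat (by norm_num)) f
  change f om = w
  rw [← h, Equiv.apply_symm_apply]

theorem map_om {F : Type*} [Field F] [Algebra K F] :
    (algebraMap K F om) ^ 2 + algebraMap K F om + 1 = 0 := by
  have h : (om : K) ^ 2 + om + 1 = 0 := S4.om_eq
  have h2 := congrArg (algebraMap K F) h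
  rwa [map_add, map_add, map_pow, map_one, map_zero] at h2

theorem noCube_down {N M : Type*} [Field N] [NumberField N] [Field M] [NumberField M]
    [Algebra N M] (h : NoCube3 M) : NoCube3 N := by
  intro v hv γ hγ
  obtain ⟨w, rfl⟩ := exists_above N M v
  refine h w ?_ (γ ^ S5.ram N w) ?_
  · rw [mem_below, map_ofNat] at hv
    exact hv
  · have h1 := val_below N w (3 : N)
    rw [map_ofNat] at h1
    rw [h1, ← hγ, ← pow_mul, ← pow_mul, mul_comm]

/-- The ramification condition for the subfields of the compositum. -/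
theorem ramL_of_le {ℓ : ℕ} (hℓ : ℓ.Prime) (h3 : ℓ ≠ 3) (L M F : Type) [Field L] [NumberField L]
    [Field M] [NumberField M] [Field F] [NumberField F] [Algebra L M] [Algebra K M] [Algebra K F]
    [Algebra F M] [IsScalarTower K F M] (hL : RamP ℓ L)
    (hF : ∀ x : F, algebraMap F M x ∈ L⟮algebraMap K M om⟯) : RamL ℓ F := by
  let G : IntermediateField L M := L⟮algebraMap K M om⟯
  have hwG : algebraMap K M om ∈ G := mem_adjoin_simple_self L _
  have hw2 : (⟨algebraMap K M om, hwG⟩ : G) ^ 2 + ⟨algebraMap K M om, hwG⟩ + 1 = 0 :=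
    Subtype.ext map_om
  obtain ⟨f, hf⟩ := exists_hom hw2
  let aKG : Algebra K G := f.toAlgebra
  have hst : IsScalarTower K G M := IsScalarTower.of_algebraMap_eq' (by
    apply S4.embedding_ext
    change algebraMap K M om = ((f om : G) : M)
    rw [hf])
  let aFG : Algebra F G := ((algebraMap F M).codRestrict G.toSubalgebra.toSubring hF).toAlgebra
  have hst2 : IsScalarTower K F G := IsScalarTower.of_algebraMap_eq fun x => by
    apply Subtype.ext
    change algebraMap G M (algebraMap K G x) = algebraMap F M (algebraMap K F x)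
    rw [← IsScalarTower.algebraMap_apply, ← IsScalarTower.algebraMap_apply]
  have hint : IsIntegral L (algebraMap K M om) := Algebra.IsIntegral.isIntegral _
  have hadj : Algebra.adjoin L {algebraMap K G om} = ⊤ := by
    have h1 := (adjoin.powerBasis hint).adjoin_gen_eq_top
    rw [adjoin.powerBasis_gen] at h1
    have h2 : algebraMap K G om = AdjoinSimple.gen L (algebraMap K M om) := by
      change f om = _
      rw [hf]
      rfl
    rw [h2]
    exact h1
  intro q hq
  have hqG : Ram G q := MP_1a91b9_ntT3.S8.ram_up q hq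
  refine ⟨fun hmem => ?_, fun h3q => ?_⟩
  · by_cases h3q : (3 : 𝓞 K) ∈ q.asIdeal
    · apply q.isPrime.ne_top
      rw [Ideal.eq_top_iff_one]
      have hc : Nat.Coprime ℓ 3 := (Nat.coprime_primes hℓ Nat.prime_three).2 h3
      obtain ⟨a, b, hab⟩ := Ell.kq_nat hc
      rw [← hab]
      exact Ideal.add_mem _ (Ideal.mul_mem_left _ _ hmem) (Ideal.mul_mem_left _ _
        (by exact_mod_cast h3q))
    · exact (hL ℓ hℓ h3 (dvd_discr_of_ram hadj q hqG h3q hℓ hmem)).1 rfl
  · obtain ⟨p, hp, hpq⟩ := S8.exists_char q
    have hp3 : p ≠ 3 := by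
      rintro rfl
      exact h3q (by exact_mod_cast hpq)
    exact cop_of_card hℓ q h3q hp hpq (hL p hp hp3 (dvd_discr_of_ram hadj q hqG h3q hp hpq)).2

/-- What is needed about the field `N`. -/
theorem exists_dat {ℓ : ℕ} (hℓ : ℓ.Prime) (h3 : ℓ ≠ 3) (N L M : Type) [Field N] [NumberField N]
    [Field L] [NumberField L] [Field M] [NumberField M] [Algebra N L] [Algebra L M] [Algebra K M]
    [IsGalois K M] (n : ℕ) (hM : finrank K M = ℓ ^ n) (hL : RamP ℓ L) :
    NoCube3 N ∧ ((∃ _ : Algebra K N, TowerL ℓ N) ∨
      ∃ (F : Type) (_ : Field F) (_ : NumberField F) (_ : Algebra N F) (_ : Algebra K F),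
        finrank N F = 2 ∧ (∀ x : N, algebraMap N F x ≠ algebraMap K F om) ∧ TowerL ℓ F) := by
  let aNM : Algebra N M := ((algebraMap L M).comp (algebraMap N L)).toAlgebra
  have hNLM : IsScalarTower N L M := IsScalarTower.of_algebraMap_eq' rfl
  refine ⟨?_, ?_⟩
  · refine noCube_down (M := M) (D7.noCube3_of_galois M ?_)
    rw [hM]
    intro h
    have h1 := Nat.prime_three.dvd_of_dvd_pow h
    exact h3 ((Nat.prime_dvd_prime_iff_eq Nat.prime_three hℓ).1 h1).symm
  · by_cases hN : ∃ x : N, algebraMap N M x = algebraMap K M om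
    · left
      obtain ⟨x, hx⟩ := hN
      have hx2 : x ^ 2 + x + 1 = 0 := by
        apply (algebraMap N M).injective
        rw [map_add, map_add, map_pow, map_one, map_zero, hx]
        exact map_om
      obtain ⟨f, hf⟩ := exists_hom hx2
      let aKN : Algebra K N := f.toAlgebra
      have hst : IsScalarTower K N M := IsScalarTower.of_algebraMap_eq' (by
        apply S4.embedding_ext
        change algebraMap K M om = algebraMap N M (f om)
        rw [hf, hx])
      refine ⟨aKN, towerL_of_galois hℓ N M n hM (ramL_of_le hℓ h3 L M N hL fun y => ?_)⟩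
      rw [IsScalarTower.algebraMap_apply N L M]
      exact IntermediateField.algebraMap_mem _ _
    · right
      let F : IntermediateField N M := N⟮algebraMap K M om⟯
      have hwF : algebraMap K M om ∈ F := mem_adjoin_simple_self N _
      have hw2 : (⟨algebraMap K M om, hwF⟩ : F) ^ 2 + ⟨algebraMap K M om, hwF⟩ + 1 = 0 :=
        Subtype.ext map_om
      obtain ⟨f, hf⟩ := exists_hom hw2
      let aKF : Algebra K F := f.toAlgebra
      have hst : IsScalarTower K F M := IsScalarTower.of_algebraMap_eq' (by
        apply S4.embedding_ext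
        change algebraMap K M om = ((f om : F) : M)
        rw [hf])
      have hint : IsIntegral N (algebraMap K M om) := Algebra.IsIntegral.isIntegral _
      refine ⟨F, inferInstance, inferInstance, inferInstance, aKF, ?_, ?_, ?_⟩
      · have h1 : finrank N F = (minpoly N (algebraMap K M om)).natDegree :=
          adjoin.finrank hint
        rw [h1]
        have hdvd : minpoly N (algebraMap K M om) ∣ (X ^ 2 + X + 1 : N[X]) := by
          apply minpoly.dvd
          rw [map_add, map_add, map_pow, aeval_X, map_one, map_om]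
        have hdeg : (X ^ 2 + X + 1 : N[X]).natDegree = 2 := by compute_degree!
        have hne : (X ^ 2 + X + 1 : N[X]) ≠ 0 := by
          intro h0
          rw [h0, natDegree_zero] at hdeg
          omega
        have hle := natDegree_le_of_dvd hdvd hne
        rw [hdeg] at hle
        have hpos := minpoly.natDegree_pos hint
        have hne1 : (minpoly N (algebraMap K M om)).natDegree ≠ 1 := by
          intro h2
          exact hN (minpoly.natDegree_eq_one_iff.1 h2)
        omega
      · intro x hx
        apply hN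
        refine ⟨x, ?_⟩
        have h1 := congrArg (algebraMap F M) hx
        rw [← IsScalarTower.algebraMap_apply, ← IsScalarTower.algebraMap_apply] at h1
        exact h1
      · refine towerL_of_galois hℓ F M n hM (ramL_of_le hℓ h3 L M F hL fun y => ?_)
        have hle : F ≤ (L⟮algebraMap K M om⟯).restrictScalars N := by
          apply adjoin_simple_le_iff.2
          exact mem_adjoin_simple_self L _
        exact hle y.2

end Pool.Agent.Lib.MP_1a91b9_ntT.PT
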