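import Pool.Agent.Lib.MP_1a91b9_ntT.PT.Tow
import Pool.Agent.Lib.MP_1a91b9_ntT.S4.Psi
import Pool.Agent.Lib.MP_1a91b9_ntT.S8.Unr

/-!
# The primes of `K` which ramify in `L K` lie above the divisors of the discriminant of `L`
-/

set_option autoImplicit false

namespace Pool.Agent.Lib.MP_1a91b9_ntT.PT

open NumberField IsDedekindDomain Module Polynomial
open Pool.Agent.Lib.MP_1a91b9_ntT.S5 (below mem_below)
open Pool.Agent.Lib.MP_1a91b9_ntG (Ram)

universe u

section
variable {L G : Type} [Field L] [NumberField L] [Field G] [NumberField G] [Algebra L G]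
  [Algebra K G]

/-- Adjoining a cube root of unity is unramified outside `3`. -/
theorem unr_om (h : Algebra.adjoin L {algebraMap K G om} = ⊤) (w : HeightOneSpectrum (𝓞 G))
    (h3 : (3 : 𝓞 G) ∉ w.asIdeal) : Algebra.IsUnramifiedAt (𝓞 L) w.asIdeal := by
  have hwp : w.asIdeal.IsPrime := w.isPrime
  set x : 𝓞 G := algebraMap (𝓞 K) (𝓞 G) S4.omO with hx
  have hx0 : x ^ 2 + x + 1 = 0 := by
    rw [hx, ← map_pow, ← map_add, ← map_one (algebraMap (𝓞 K) (𝓞 G)), ← map_add, S4.omO_eq, map_zero]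
  have hint : IsIntegral (𝓞 L) x := Algebra.IsIntegral.isIntegral x
  have hdvd : minpoly (𝓞 L) x ∣ (X ^ 2 + X + 1 : (𝓞 L)[X]) := by
    apply minpoly.isIntegrallyClosed_dvd hint
    rw [map_add, map_add, map_pow, aeval_X, map_one, hx0]
  obtain ⟨r, hr⟩ := hdvd
  rw [← not_dvd_differentIdeal_iff]
  intro hd
  have hmem : aeval x (derivative (minpoly (𝓞 L) x)) ∈ differentIdeal (𝓞 L) (𝓞 G) :=
    aeval_derivative_mem_differentIdeal (𝓞 L) L G x h
  have hmem2 : aeval x (derivative (minpoly (𝓞 L) x)) ∈ w.asIdeal :=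
    (Ideal.dvd_iff_le.1 hd) hmem
  have hder : aeval x (derivative (X ^ 2 + X + 1 : (𝓞 L)[X])) ∈ w.asIdeal := by
    rw [hr, derivative_mul, map_add, map_mul, map_mul, minpoly.aeval, zero_mul, add_zero]
    exact Ideal.mul_mem_right _ _ hmem2
  have hder2 : 2 * x + 1 ∈ w.asIdeal := by
    have e : aeval x (derivative (X ^ 2 + X + 1 : (𝓞 L)[X])) = 2 * x + 1 := by
      rw [derivative_add, derivative_add, derivative_X_pow, derivative_X, derivative_one, add_zero,
        map_add, map_one, map_mul, map_pow, aeval_X, aeval_C, Nat.cast_ofNat, map_ofNat, pow_one]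
    rw [← e]
    exact hder
  apply h3
  have e : (3 : 𝓞 G) = -((2 * x + 1) * (2 * x + 1)) := by linear_combination 4 * hx0
  rw [e]
  exact w.asIdeal.neg_mem (Ideal.mul_mem_left _ _ hder2)

/-- The primes of `K` which ramify in `L K` lie above the divisors of the discriminant of `L`. -/
theorem dvd_discr_of_ram (h : Algebra.adjoin L {algebraMap K G om} = ⊤)
    (q : HeightOneSpectrum (𝓞 K)) (hq : Ram G q) (h3 : (3 : 𝓞 K) ∉ q.asIdeal) {p : ℕ}
    (hp : p.Prime) (hpq : (p : 𝓞 K) ∈ q.asIdeal) : (p : ℤ) ∣ discr L := by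
  by_contra hd
  obtain ⟨w, hw⟩ := hq
  have hwp : w.asIdeal.IsPrime := w.isPrime
  have hle : q.asIdeal.map (algebraMap (𝓞 K) (𝓞 G)) ≤ w.asIdeal :=
    hw.trans (Ideal.pow_le_self two_ne_zero)
  have hpw : (p : 𝓞 G) ∈ w.asIdeal := by
    have h1 := hle (Ideal.mem_map_of_mem _ hpq)
    rwa [map_natCast] at h1
  have hunder := MP_1a91b9_ntG.under_of_le hle
  have h3w : (3 : 𝓞 G) ∉ w.asIdeal := by
    intro h4
    apply h3
    rw [← hunder]
    change algebraMap (𝓞 K) (𝓞 G) 3 ∈ w.asIdeal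
    rwa [map_ofNat]
  have hvp : (below L w).asIdeal.IsPrime := (below L w).isPrime
  have hlo : w.asIdeal.LiesOver (below L w).asIdeal := ⟨rfl⟩
  have hpv : (p : 𝓞 L) ∈ (below L w).asIdeal := by
    rw [mem_below, map_natCast]
    exact hpw
  have h1 : Algebra.IsUnramifiedAt ℤ (below L w).asIdeal :=
    (not_dvd_discr_iff_forall_mem L (𝓞 L) (Nat.prime_iff_prime_int.1 hp)).1 hd _
      hvp (by exact_mod_cast hpv)
  have h2 : Algebra.IsUnramifiedAt (𝓞 L) w.asIdeal := unr_om h w h3w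
  have h4 : Algebra.IsUnramifiedAt ℤ w.asIdeal :=
    Algebra.IsUnramifiedAt.comp (below L w).asIdeal w.asIdeal
  have h5 : Algebra.IsUnramifiedAt (𝓞 K) w.asIdeal :=
    Algebra.IsUnramifiedAt.of_restrictScalars ℤ w.asIdeal
  have h6 : w.asIdeal.ramificationIdx (𝓞 K) = 1 := Ideal.ramificationIdx_eq_one_of_isUnramifiedAt
  exact ((MP_1a91b9_ntG.le_sq_iff hunder).1 hw) h6

end

end Pool.Agent.Lib.MP_1a91b9_ntT.PT
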